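import Mathlib

set_option autoImplicit false

namespace Pool.Agent.KS6_89.KO

universe u

/-- `KO G`: the intersection of the kernels of all continuous homomorphisms to `GL_n(ℂ)`, `n ≥ 1`. -/
def KO (G : Type u) [Group G] [TopologicalSpace G] : Subgroup G :=
  ⨅ (n : ℕ) (_ : 1 ≤ n) (ρ : G →* GL (Fin n) ℂ) (_ : Continuous ρ), ρ.ker

lemma mem_KO {G : Type u} [Group G] [TopologicalSpace G] {g : G} :
    g ∈ KO G ↔ ∀ n : ℕ, 1 ≤ n → ∀ ρ : G →* GL (Fin n) ℂ, Continuous ρ → ρ g = 1 := by
  simp [KO, Subgroup.mem_iInf, MonoidHom.mem_ker]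

instance normal_KO (G : Type u) [Group G] [TopologicalSpace G] : (KO G).Normal := by
  constructor
  intro a ha g
  rw [mem_KO] at ha ⊢
  intro n hn ρ hρ
  rw [map_mul, map_mul, ha n hn ρ hρ, mul_one, ← map_mul, mul_inv_cancel, map_one]

/-- the permutation matrices -/
def perm (n : ℕ) : Equiv.Perm (Fin n) →* Matrix (Fin n) (Fin n) ℂ where
  toFun σ := Matrix.of fun i j => if i = σ j then 1 else 0
  map_one' := by
    ext i j
    by_cases h : i = j
    · subst h
      simp
    · simp [Matrix.one_apply_ne h, h]
  map_mul' σ τ := by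
    ext i j
    rw [Matrix.mul_apply, Finset.sum_eq_single (τ j)]
    · by_cases h : i = σ (τ j)
      · simp [h]
      · simp [h]
    · intro k _ hk
      simp [hk]
    · simp

lemma perm_inj {n : ℕ} {σ : Equiv.Perm (Fin n)} (h : perm n σ = 1) : σ = 1 := by
  ext j
  have h1 := congrFun (congrFun h (σ j)) j
  simp only [perm, MonoidHom.coe_mk, OneHom.coe_mk, Matrix.of_apply, if_true, Matrix.one_apply] at h1
  by_cases h2 : σ j = j
  · simp [h2]
  · rw [if_neg h2] at h1
    exact absurd h1 one_ne_zero

/-- A homomorphism from a topological group to the permutations of a finite set, with open kernel, kills `KO G`. -/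
lemma perm_kills {G : Type u} [Group G] [TopologicalSpace G] [IsTopologicalGroup G] {X : Type u} [Finite X]
    (σ : G →* Equiv.Perm X) (hσ : IsOpen (σ.ker : Set G)) {a : G} (ha : a ∈ KO G) : σ a = 1 := by
  classical
  rcases isEmpty_or_nonempty X with hX | hX
  · exact Subsingleton.elim _ _
  obtain ⟨n, ⟨e⟩⟩ := Finite.exists_equiv_fin X
  have hn : 1 ≤ n := by
    rcases Nat.eq_zero_or_pos n with h | h
    · subst h
      exact (IsEmpty.false (e (Classical.arbitrary X))).elim
    · exact h
  let ρ : G →* GL (Fin n) ℂ := MonoidHom.toHomUnits ((perm n).comp ((e.permCongrHom.toMonoidHom).comp σ))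
  have hρ : Continuous ρ := by
    apply continuous_of_continuousAt_one
    have h1 : ∀ᶠ g in nhds (1 : G), ρ g = 1 := by
      filter_upwards [hσ.mem_nhds (one_mem _)] with g hg
      have hg' : σ g = 1 := hg
      ext1
      show perm n (e.permCongrHom (σ g)) = 1
      rw [hg', map_one, map_one]
    rw [ContinuousAt, map_one]
    exact tendsto_const_nhds.congr' (h1.mono fun _ h => h.symm)
  have h2 := mem_KO.1 ha n hn ρ hρ
  have h3 : perm n (e.permCongrHom (σ a)) = 1 := by
    have := congrArg (fun u : GL (Fin n) ℂ => (u : Matrix (Fin n) (Fin n) ℂ)) h2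
    exact this
  have h4 := perm_inj h3
  exact (MulEquiv.map_eq_one_iff _).1 h4

/-- A topologically finitely generated group with enough open normal subgroups of finite index that is
`KO G` for a topological group `G` is commutative. -/
theorem comm_of_KO {A G : Type u} [Group A] [TopologicalSpace A] [IsTopologicalGroup A]
    [Group G] [TopologicalSpace G] [IsTopologicalGroup G]
    (S : Set A) (hS : S.Finite) (hS' : closure (Subgroup.closure S : Set A) = Set.univ)
    (hres : ∀ a : A, a ≠ 1 → ∃ N : Subgroup A, N.Normal ∧ IsOpen (N : Set A) ∧ N.FiniteIndex ∧ a ∉ N)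
    (e : KO G ≃ₜ* A) (a b : A) : a * b = b * a := by
  classical
  by_contra hab
  have hc : a * b * a⁻¹ * b⁻¹ ≠ 1 := by
    intro h
    apply hab
    rw [mul_inv_eq_one, mul_inv_eq_iff_eq_mul] at h
    exact h
  obtain ⟨N, hN, hNo, hNf, hcN⟩ := hres _ hc
  -- the finite discrete quotient
  let F := A ⧸ N
  have : Finite F := inferInstanceAs (Finite (A ⧸ N))
  let : TopologicalSpace F := ⊥
  have : DiscreteTopology F := ⟨rfl⟩
  let X : Type u := {φ : KO G →* F // Continuous φ}
  let T : Set (KO G) := e.symm '' S
  have hT : T.Finite := hS.image _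
  have hT' : closure (Subgroup.closure T : Set (KO G)) = Set.univ := by
    have h1 : (Subgroup.closure T : Set (KO G)) = e.symm '' (Subgroup.closure S : Set A) := by
      have := MonoidHom.map_closure (e.symm.toMulEquiv.toMonoidHom) S
      have h2 := congrArg (fun H : Subgroup (KO G) => (H : Set (KO G))) this
      exact h2.symm
    rw [h1]
    have h2 := e.symm.toHomeomorph.image_closure (Subgroup.closure S : Set A)
    rw [hS', Set.image_univ] at h2
    have h3 : closure (e.symm '' (Subgroup.closure S : Set A)) = Set.range e.symm := h2.symm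
    rw [h3, Set.range_eq_univ]
    exact e.symm.surjective
  have hXfin : Finite X := by
    have : Finite T := hT
    let r : X → (T → F) := fun φ t => φ.1 t.1
    apply Finite.of_injective r
    intro φ ψ h
    apply Subtype.ext
    have h1 : Set.EqOn φ.1 ψ.1 (Subgroup.closure T : Set (KO G)) := by
      apply MonoidHom.eqOn_closure
      intro t ht
      exact congrFun h ⟨t, ht⟩
    have h2 : Set.EqOn φ.1 ψ.1 (closure (Subgroup.closure T : Set (KO G))) := h1.closure φ.2 ψ.2
    ext x
    exact h2 (by rw [hT']; trivial)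
  -- the action of `G` on `X`
  have hcj : ∀ (g : G) (x : KO G), (MulAut.conjNormal g x : G) = g * x * g⁻¹ := fun g x => rfl
  have hcont : ∀ g : G, Continuous (fun x : KO G => MulAut.conjNormal g x) := by
    intro g
    apply Continuous.subtype_mk
    exact (continuous_const.mul continuous_subtype_val).mul continuous_const
  let tr : G → X → X := fun g φ => ⟨φ.1.comp (MulAut.conjNormal g⁻¹ : MulAut (KO G)).toMonoidHom,
    show Continuous (fun x : KO G => φ.1 (MulAut.conjNormal g⁻¹ x)) from φ.2.comp (hcont g⁻¹)⟩
  have htr : ∀ (g : G) (φ : X) (x : KO G), (tr g φ).1 x = φ.1 (MulAut.conjNormal g⁻¹ x) := fun _ _ _ => rfl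
  have htr1 : ∀ φ : X, tr 1 φ = φ := by
    intro φ
    apply Subtype.ext
    ext x
    rw [htr, inv_one, map_one, MulAut.one_apply]
  have htrm : ∀ (g h : G) (φ : X), tr (g * h) φ = tr g (tr h φ) := by
    intro g h φ
    apply Subtype.ext
    ext x
    rw [htr, htr, htr, mul_inv_rev, map_mul, MulAut.mul_apply]
  let act : G →* Equiv.Perm X :=
    { toFun := fun g => ⟨tr g, tr g⁻¹, fun φ => by rw [← htrm, inv_mul_cancel, htr1],
        fun φ => by rw [← htrm, mul_inv_cancel, htr1]⟩
      map_one' := by
        ext1 φ
        exact htr1 φ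
      map_mul' := by
        intro g h
        ext1 φ
        exact htrm g h φ }
  have hact : IsOpen (act.ker : Set G) := by
    have h1 : (act.ker : Set G) = ⋂ φ : X, ⋂ t ∈ T, {g : G | φ.1 (MulAut.conjNormal g⁻¹ t) = φ.1 t} := by
      ext g
      simp only [Set.mem_iInter, Set.mem_ofPred_eq, SetLike.mem_coe, MonoidHom.mem_ker]
      constructor
      · intro h φ t _
        rw [← htr]
        have h2 : tr g φ = φ := by
          have := congrArg (fun σ : Equiv.Perm X => σ φ) h
          exact this
        rw [h2]
      · intro h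
        ext1 φ
        apply Subtype.ext
        have h1 : Set.EqOn (tr g φ).1 φ.1 (Subgroup.closure T : Set (KO G)) := by
          apply MonoidHom.eqOn_closure
          intro t ht
          exact h φ t ht
        have h2 : Set.EqOn (tr g φ).1 φ.1 (closure (Subgroup.closure T : Set (KO G))) := h1.closure (tr g φ).2 φ.2
        ext x
        exact h2 (by rw [hT']; trivial)
    rw [h1]
    apply isOpen_iInter_of_finite
    intro φ
    apply hT.isOpen_biInter
    intro t _
    have hc : Continuous fun g : G => φ.1 (MulAut.conjNormal g⁻¹ t) := by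
      apply φ.2.comp
      apply Continuous.subtype_mk
      exact (continuous_inv.mul continuous_const).mul continuous_inv.inv
    exact (isOpen_discrete ({φ.1 t} : Set F)).preimage hc
  -- `KO G` acts trivially
  let q : X := ⟨(QuotientGroup.mk' N).comp e.toMulEquiv.toMonoidHom, by
    have h1 : Continuous (fun x : A => (QuotientGroup.mk' N x : F)) := by
      rw [continuous_discrete_rng]
      intro b
      rw [isOpen_iff_mem_nhds]
      intro x hx
      have h1 : {y : A | x⁻¹ * y ∈ N} ∈ nhds x :=
        (hNo.preimage (continuous_const.mul continuous_id)).mem_nhds (by simp [one_mem])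
      filter_upwards [h1] with y hy
      have hx' : (QuotientGroup.mk' N x : F) = b := hx
      show (QuotientGroup.mk' N y : F) = b
      rw [← hx']
      exact (QuotientGroup.eq.2 hy).symm
    exact h1.comp e.continuous⟩
  have h1 := perm_kills act hact (e.symm a).2
  have h2 : tr (e.symm a : G) q = q := by
    have := congrArg (fun σ : Equiv.Perm X => σ q) h1
    exact this
  have h3 : (tr (e.symm a : G) q).1 (e.symm b) = q.1 (e.symm b) := by rw [h2]
  rw [htr] at h3
  have h4 : e (MulAut.conjNormal (e.symm a : G)⁻¹ (e.symm b)) = a⁻¹ * b * a := by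
    have : (MulAut.conjNormal (e.symm a : G)⁻¹ (e.symm b)) = (e.symm a)⁻¹ * e.symm b * e.symm a := by
      apply Subtype.ext
      rw [hcj]
      simp
    rw [this, map_mul, map_mul, map_inv]
    simp
  have h5 : (QuotientGroup.mk' N (a⁻¹ * b * a) : F) = QuotientGroup.mk' N b := by
    rw [← h4]
    have : e (e.symm b) = b := e.apply_symm_apply b
    calc _ = q.1 (MulAut.conjNormal (e.symm a : G)⁻¹ (e.symm b)) := rfl
      _ = q.1 (e.symm b) := h3
      _ = QuotientGroup.mk' N (e (e.symm b)) := rfl
      _ = _ := by rw [this]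
  apply hcN
  have h6 := (QuotientGroup.eq).1 h5
  have h7 := hN.conj_mem _ h6 (b * a)
  have h8 : b * a * ((a⁻¹ * b * a)⁻¹ * b) * (b * a)⁻¹ = a * b * a⁻¹ * b⁻¹ := by group
  rwa [h8] at h7

end Pool.Agent.KS6_89.KO
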