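import Pool.Agent.KS6_89.KO.A

set_option autoImplicit false

namespace Pool.Agent.KS6_89.KO

universe u

open Filter Topology Polynomial

lemma nilp_eq_zero {n : ℕ} (M : Matrix (Fin n) (Fin n) ℂ) (k : ℕ) (hk : (M - 1) ^ k = 0)
    (hb : ∀ (P : Matrix (Fin n) (Fin n) ℂ) (i j : Fin n), ∃ B : ℝ, ∀ m : ℕ, ‖(M ^ m * P) i j‖ ≤ B) : M = 1 := by
  classical
  by_contra hM
  have hN : M - 1 ≠ 0 := sub_ne_zero.2 hM
  have hk' : ∃ k, (M - 1) ^ k = 0 := ⟨k, hk⟩
  obtain ⟨r, hr⟩ : ∃ r, Nat.find hk' = r + 2 := by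
    have h0 : Nat.find hk' ≠ 0 := by
      intro h
      have h1 := Nat.find_spec hk'
      rw [h, pow_zero] at h1
      apply hN
      calc M - 1 = (M - 1) * 1 := (mul_one _).symm
        _ = 0 := by rw [h1, mul_zero]
    have h1 : Nat.find hk' ≠ 1 := by
      intro h
      have h1 := Nat.find_spec hk'
      rw [h, pow_one] at h1
      exact hN h1
    exact ⟨Nat.find hk' - 2, by omega⟩
  have hz : (M - 1) ^ (r + 2) = 0 := hr ▸ Nat.find_spec hk'
  have hnz : (M - 1) ^ (r + 1) ≠ 0 := Nat.find_min hk' (by omega)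
  have hform : ∀ m : ℕ, M ^ m * (M - 1) ^ r = (M - 1) ^ r + (m : ℂ) • (M - 1) ^ (r + 1) := by
    intro m
    induction m with
    | zero => simp
    | succ m ih =>
      rw [pow_succ', mul_assoc, ih]
      have h1 : M = 1 + (M - 1) := by abel
      rw [h1, add_mul, one_mul, mul_add, mul_smul_comm]
      simp only [← h1]
      have h2 : (M - 1) * (M - 1) ^ r = (M - 1) ^ (r + 1) := (pow_succ' _ _).symm
      have h3 : (M - 1) * (M - 1) ^ (r + 1) = 0 := by rw [← pow_succ', hz]

      rw [h2, h3, smul_zero, add_zero]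
      push_cast
      rw [add_smul, one_smul]
      abel
  apply hnz
  ext i j
  by_contra hij
  obtain ⟨B, hB⟩ := hb ((M - 1) ^ r) i j
  have hpos : 0 < ‖((M - 1) ^ (r + 1)) i j‖ := norm_pos_iff.2 hij
  obtain ⟨m, hm⟩ := exists_nat_gt ((B + ‖((M - 1) ^ r) i j‖) / ‖((M - 1) ^ (r + 1)) i j‖)
  rw [div_lt_iff₀ hpos] at hm
  have h1 := hB m
  rw [hform, Matrix.add_apply, Matrix.smul_apply, smul_eq_mul] at h1
  have h2 : ‖(m : ℂ) * ((M - 1) ^ (r + 1)) i j‖ ≤ B + ‖((M - 1) ^ r) i j‖ := by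
    have h3 : (m : ℂ) * ((M - 1) ^ (r + 1)) i j = (((M - 1) ^ r) i j + (m : ℂ) * ((M - 1) ^ (r + 1)) i j) - ((M - 1) ^ r) i j := by ring
    rw [h3]
    exact (norm_sub_le _ _).trans (add_le_add_left h1 _)
  rw [norm_mul, Complex.norm_natCast] at h2
  linarith

/-- A continuous representation kills every element with relatively compact powers that has conjugates
arbitrarily close to `1`. -/
theorem rep_kills {G : Type u} [Group G] [TopologicalSpace G] [IsTopologicalGroup G] {n : ℕ}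
    (ρ : G →* GL (Fin n) ℂ) (hρ : Continuous ρ) (g : G) (h : ℕ → G)
    (hlim : Tendsto (fun m => h m * g * (h m)⁻¹) atTop (𝓝 1)) (C : Set G) (hC : IsCompact C)
    (hgC : ∀ m : ℕ, g ^ m ∈ C) : ρ g = 1 := by
  classical
  have hcv : Continuous fun x : G => (ρ x : Matrix (Fin n) (Fin n) ℂ) := Units.continuous_val.comp hρ
  set M : Matrix (Fin n) (Fin n) ℂ := (ρ g : Matrix (Fin n) (Fin n) ℂ) with hM
  have hdet : ∀ z : ℂ, (Matrix.scalar (Fin n) z - M).det = (z - 1) ^ n := by
    intro z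
    have hcd : Continuous fun x : G => (Matrix.scalar (Fin n) z - (ρ x : Matrix (Fin n) (Fin n) ℂ)).det :=
      (continuous_const.sub hcv).matrix_det
    have h1 := (hcd.tendsto 1).comp hlim
    have h2 : ∀ m, (Matrix.scalar (Fin n) z - (ρ (h m * g * (h m)⁻¹) : Matrix (Fin n) (Fin n) ℂ)).det =
        (Matrix.scalar (Fin n) z - M).det := by
      intro m
      have h3 : Matrix.scalar (Fin n) z - (ρ (h m * g * (h m)⁻¹) : Matrix (Fin n) (Fin n) ℂ) =
          (ρ (h m) : Matrix (Fin n) (Fin n) ℂ) * (Matrix.scalar (Fin n) z - M) *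
            ((ρ (h m))⁻¹ : GL (Fin n) ℂ) := by
        rw [mul_sub, sub_mul, map_mul, map_mul, map_inv]
        congr 1
        rw [← (Matrix.scalar_commute z (fun r => mul_comm _ _) _).eq, mul_assoc, Units.mul_inv, mul_one]
      rw [h3, Matrix.det_mul, Matrix.det_mul, mul_right_comm, ← Matrix.det_mul, Units.mul_inv, Matrix.det_one, one_mul]
    have h4 : Tendsto (fun _ : ℕ => (Matrix.scalar (Fin n) z - M).det) atTop
        (𝓝 ((Matrix.scalar (Fin n) z - (ρ 1 : Matrix (Fin n) (Fin n) ℂ)).det)) := by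
      refine h1.congr fun m => ?_
      exact h2 m
    have h5 := tendsto_nhds_unique tendsto_const_nhds h4
    rw [h5, map_one, Units.val_one]
    have h6 : Matrix.scalar (Fin n) z - (1 : Matrix (Fin n) (Fin n) ℂ) = Matrix.scalar (Fin n) (z - 1) := by
      rw [map_sub, map_one]
    rw [h6]
    simp
  have hcp : M.charpoly = (X - Polynomial.C (1 : ℂ)) ^ n := by
    apply Polynomial.funext
    intro z
    rw [Matrix.eval_charpoly, hdet]
    simp
  have hCH := Matrix.aeval_self_charpoly M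
  rw [hcp] at hCH
  have hN : (M - 1) ^ n = 0 := by
    simpa using hCH
  have hM1 : M = 1 := by
    apply nilp_eq_zero M n hN
    intro P i j
    have hcf : Continuous fun x : G => ‖((ρ x : Matrix (Fin n) (Fin n) ℂ) * P) i j‖ := by
      have h1 : Continuous fun x : G => (ρ x : Matrix (Fin n) (Fin n) ℂ) * P := hcv.mul continuous_const
      exact (h1.matrix_elem i j).norm
    obtain ⟨B, hB⟩ := (hC.image hcf).bddAbove
    refine ⟨B, fun m => ?_⟩
    apply hB
    refine ⟨g ^ m, hgC m, ?_⟩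
    simp [hM]
  exact Units.ext hM1

end Pool.Agent.KS6_89.KO
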