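import Pool.Agent.KS6_89.KO.B

set_option autoImplicit false

namespace Pool.Agent.KS6_89.KO

universe u

open Filter Topology

section
variable (K : Type u) [Group K]

/-- `K^ℤ ⋊ ℤ`, with `ℤ` acting by shifts -/
def W : Type u := (ℤ → K) × ℤ

variable {K}

instance : Mul (W K) := ⟨fun p q => (fun i => p.1 i * q.1 (i - p.2), p.2 + q.2)⟩
instance : One (W K) := ⟨(fun _ => 1, 0)⟩
instance : Inv (W K) := ⟨fun p => (fun i => (p.1 (i + p.2))⁻¹, -p.2)⟩

lemma mul_1 (p q : W K) (i : ℤ) : (p * q).1 i = p.1 i * q.1 (i - p.2) := rfl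
lemma mul_2 (p q : W K) : (p * q).2 = p.2 + q.2 := rfl
lemma one_1 (i : ℤ) : (1 : W K).1 i = 1 := rfl
lemma one_2 : (1 : W K).2 = 0 := rfl
lemma inv_1 (p : W K) (i : ℤ) : (p⁻¹).1 i = (p.1 (i + p.2))⁻¹ := rfl
lemma inv_2 (p : W K) : (p⁻¹).2 = -p.2 := rfl

omit [Group K] in
lemma W_ext {p q : W K} (h1 : ∀ i, p.1 i = q.1 i) (h2 : p.2 = q.2) : p = q := Prod.ext (funext h1) h2

instance : Group (W K) := Group.ofLeftAxioms
  (fun a b d => W_ext (fun i => by
      show a.1 i * b.1 (i - a.2) * d.1 (i - (a.2 + b.2)) = a.1 i * (b.1 (i - a.2) * d.1 (i - a.2 - b.2))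
      rw [mul_assoc, sub_sub])
    (by simp only [mul_2, add_assoc]))
  (fun a => W_ext (fun i => by simp [mul_1, one_1, one_2]) (by simp [mul_2, one_2]))
  (fun a => W_ext (fun i => by simp [mul_1, inv_1, inv_2, one_1]) (by simp [mul_2, inv_2, one_2]))

variable [TopologicalSpace K]

instance : TopologicalSpace (W K) := inferInstanceAs (TopologicalSpace ((ℤ → K) × ℤ))

lemma cont1 : Continuous fun p : W K => p.1 := continuous_fst (X := ℤ → K) (Y := ℤ)
lemma cont2 : Continuous fun p : W K => p.2 := continuous_snd (X := ℤ → K) (Y := ℤ)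

lemma cont_shift (f : ℤ → ℤ → ℤ) : Continuous fun q : (ℤ → K) × ℤ => fun i => q.1 (f q.2 i) := by
  rw [continuous_prod_of_discrete_right]
  intro m
  exact continuous_pi fun i => continuous_apply (f m i)

instance [IsTopologicalGroup K] : IsTopologicalGroup (W K) where
  continuous_mul := by
    apply Continuous.prodMk
    · have h1 : Continuous fun p : W K × W K => p.1.1 := cont1.comp continuous_fst
      have h2 : Continuous fun p : W K × W K => fun i => p.2.1 (i - p.1.2) :=
        (cont_shift (K := K) fun m i => i - m).comp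
          ((cont1.comp continuous_snd).prodMk (cont2.comp continuous_fst))
      exact h1.mul h2
    · exact (cont2.comp continuous_fst).add (cont2.comp continuous_snd)
  continuous_inv := by
    apply Continuous.prodMk
    · have h2 : Continuous fun p : W K => fun i => p.1 (i + p.2) := cont_shift (K := K) fun m i => i + m
      exact h2.inv
    · exact cont2.neg

instance [T2Space K] : T2Space (W K) := inferInstanceAs (T2Space ((ℤ → K) × ℤ))
instance [CompactSpace K] [T2Space K] : LocallyCompactSpace (W K) :=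
  inferInstanceAs (LocallyCompactSpace ((ℤ → K) × ℤ))

noncomputable def two : GL (Fin 1) ℂ := Matrix.GeneralLinearGroup.scalar (Fin 1) (Units.mk0 2 two_ne_zero)

lemma two_pow {k : ℤ} (h : two ^ k = 1) : k = 0 := by
  have h0 := congrArg Matrix.GeneralLinearGroup.det h
  rw [map_zpow, map_one] at h0
  have h1 := congrArg (fun g : ℂˣ => ‖(g : ℂ)‖) h0
  simp [two, Matrix.GeneralLinearGroup.scalar] at h1
  exact (zpow_eq_one_iff_right₀ (by norm_num) (by norm_num)).1 h1

lemma snd_zero {g : W K} (hg : g ∈ KO (W K)) : g.2 = 0 := by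
  let ρ : W K →* GL (Fin 1) ℂ :=
    { toFun := fun p => two ^ p.2
      map_one' := by rw [one_2, zpow_zero]
      map_mul' := fun p q => by rw [mul_2, zpow_add] }
  have hρ : Continuous ρ := (continuous_of_discreteTopology (f := fun v : ℤ => two ^ v)).comp cont2
  exact two_pow (mem_KO.1 hg 1 le_rfl ρ hρ)

def emb (x : ℤ → K) : W K := (x, 0)

lemma emb_pow (x : ℤ → K) (m : ℕ) : (emb x) ^ m = emb (x ^ m) := by
  induction m with
  | zero => rw [pow_zero, pow_zero]; rfl
  | succ m ih =>
    rw [pow_succ, ih]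
    refine W_ext (fun i => ?_) ?_
    · rw [mul_1]
      simp [emb, pow_succ]
    · rw [mul_2]
      simp [emb]

def sh (m : ℤ) : W K := (fun _ => 1, m)

lemma conj_emb (x : ℤ → K) (m : ℤ) : sh m * emb x * (sh m)⁻¹ = emb fun i => x (i - m) := by
  refine W_ext (fun i => ?_) ?_
  · rw [mul_1, mul_1, inv_1]
    simp [emb, sh]
  · rw [mul_2, mul_2, inv_2]
    simp [emb, sh]

lemma emb_mem [IsTopologicalGroup K] [CompactSpace K] [T2Space K] (x : ℤ → K) : emb x ∈ KO (W K) := by
  classical
  rw [mem_KO]
  intro n _ ρ hρ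
  have hce : Continuous (emb : (ℤ → K) → W K) := Continuous.prodMk_left 0
  -- finitely supported elements
  have hfin : ∀ (y : ℤ → K) (N : ℤ), (∀ i, N < |i| → y i = 1) → ρ (emb y) = 1 := by
    intro y N hy
    apply rep_kills ρ hρ (emb y) (fun m => sh (m : ℤ)) ?_
      (emb '' Set.univ) (isCompact_univ.image hce) (fun m => ⟨y ^ m, trivial, (emb_pow y m).symm⟩)
    have h1 : Tendsto (fun m : ℕ => (fun i => y (i - m) : ℤ → K)) atTop (𝓝 (fun _ => 1)) := by
      rw [tendsto_pi_nhds]
      intro i
      apply tendsto_const_nhds.congr'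
      filter_upwards [eventually_gt_atTop (i + N + |i|).toNat] with m hm
      have hm' : i + N + |i| < m := by
        have := Int.self_le_toNat (i + N + |i|)
        omega
      rw [hy]
      have := neg_le_abs (i - (m : ℤ))
      have := abs_nonneg i
      omega
    have h2 := (hce.tendsto (fun _ => 1)).comp h1
    refine Tendsto.congr (fun m => ?_) h2
    exact (conj_emb y m).symm
  -- density
  have h1 : Tendsto (fun N : ℕ => (fun i => if |i| ≤ (N : ℤ) then x i else 1 : ℤ → K)) atTop (𝓝 x) := by
    rw [tendsto_pi_nhds]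
    intro i
    apply tendsto_const_nhds.congr'
    filter_upwards [eventually_ge_atTop |i|.toNat] with N hN
    have : |i| ≤ (N : ℤ) := by
      have := Int.self_le_toNat |i|
      omega
    rw [if_pos this]
  have h2 := ((hρ.comp hce).tendsto x).comp h1
  have h3 : Tendsto (fun _ : ℕ => (1 : GL (Fin n) ℂ)) atTop (𝓝 (ρ (emb x))) := by
    refine h2.congr fun N => ?_
    exact hfin _ N (fun i hi => if_neg (not_le.2 hi))
  exact tendsto_nhds_unique h3 tendsto_const_nhds |>.symm ▸ rfl

lemma mem_KO_W [IsTopologicalGroup K] [CompactSpace K] [T2Space K] (g : W K) : g ∈ KO (W K) ↔ g.2 = 0 := by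
  constructor
  · exact snd_zero
  · intro h
    have h1 : g = emb g.1 := W_ext (fun i => rfl) h
    rw [h1]
    exact emb_mem _

noncomputable def isoW [IsTopologicalGroup K] [CompactSpace K] [T2Space K] : KO (W K) ≃ₜ* (ℤ → K) where
  toFun g := g.1.1
  invFun x := ⟨emb x, emb_mem x⟩
  left_inv g := Subtype.ext (W_ext (fun i => rfl) ((mem_KO_W _).1 g.2).symm)
  right_inv _ := rfl
  map_mul' g h := by
    show (g.1 * h.1).1 = _
    funext i
    rw [mul_1, (mem_KO_W _).1 g.2, sub_zero]
    rfl
  continuous_toFun := cont1.comp continuous_subtype_val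
  continuous_invFun := Continuous.subtype_mk (Continuous.prodMk_left 0) _

end

/-- reindexing a power -/
def reidx (K : Type u) [Group K] [TopologicalSpace K] {I J : Type u} (e : I ≃ J) : (J → K) ≃ₜ* (I → K) where
  toFun x := fun i => x (e i)
  invFun y := fun j => y (e.symm j)
  left_inv x := by funext j; simp
  right_inv y := by funext j; simp
  map_mul' _ _ := rfl
  continuous_toFun := continuous_pi fun i => continuous_apply _
  continuous_invFun := continuous_pi fun i => continuous_apply _

def curr (K : Type u) [Group K] [TopologicalSpace K] (I : Type u) : (ℤ → (I → K)) ≃ₜ* ((I × ℤ) → K) where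
  toFun x := fun p => x p.2 p.1
  invFun y := fun m i => y (i, m)
  left_inv _ := rfl
  right_inv _ := rfl
  map_mul' _ _ := rfl
  continuous_toFun := continuous_pi fun i => (continuous_apply i.1).comp (continuous_apply i.2)
  continuous_invFun := continuous_pi fun m => continuous_pi fun i => continuous_apply _

/-- every infinite power of a compact group -/
theorem power_occurs (K : Type u) [Group K] [TopologicalSpace K] [IsTopologicalGroup K] [CompactSpace K]
    [T2Space K] (I : Type u) [Infinite I] : Nonempty (KO (W (I → K)) ≃ₜ* (I → K)) := by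
  have h1 : Nonempty (I ≃ I × ℤ) := by
    have h2 : Cardinal.lift.{u} (Cardinal.mk I) = Cardinal.lift.{u} (Cardinal.mk (I × ℤ)) := by
      rw [Cardinal.mk_prod, Cardinal.mk_int, Cardinal.lift_aleph0, Cardinal.lift_uzero, 
        Cardinal.mul_aleph0_eq (Cardinal.aleph0_le_mk I)]
    exact Cardinal.lift_mk_eq'.1 h2
  obtain ⟨e⟩ := h1
  exact ⟨(isoW.trans (curr K I)).trans (reidx K e)⟩

end Pool.Agent.KS6_89.KO
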